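import Mathlib

/-!
Homogeneous polynomials in three complex variables: dimension, derivative along a line,
and the estimate of the gradient at a point of the unit sphere where the norm is maximal.
-/

set_option autoImplicit false

namespace Pool.Agent.V1140.ML

open MvPolynomial

theorem finrank_forms (n : ℕ) :
    Module.finrank ℂ (homogeneousSubmodule (Fin 3) ℂ n) = (n + 2).choose 2 := by
  have h1 : homogeneousSubmodule (Fin 3) ℂ n = restrictSupport ℂ {d : Fin 3 →₀ ℕ | d.degree = n} :=
    homogeneousSubmodule_eq_finsupp_supported (R := ℂ) (σ := Fin 3) n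
  rw [h1, Module.finrank_eq_nat_card_basis (basisRestrictSupport ℂ {d : Fin 3 →₀ ℕ | d.degree = n})]
  have e : {d : Fin 3 →₀ ℕ | d.degree = n} ≃ Sym (Fin 3) n :=
    (Equiv.subtypeEquivRight (fun d => Iff.rfl)).trans
      (Sym.equivNatSum (Fin 3) n).symm
  rw [Nat.card_congr e, Nat.card_eq_fintype_card, Sym.card_sym_eq_choose, Fintype.card_fin]
  have : 3 + n - 1 = n + 2 := by omega
  rw [this, ← Nat.choose_symm_add]

theorem hasDerivAt_eval_aux {n : ℕ} (P : MvPolynomial (Fin n) ℂ) (z : ℂ → Fin n → ℂ) (u : Fin n → ℂ)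
    (x : ℂ) (hz : ∀ i, HasDerivAt (fun t => z t i) (u i) x) :
    HasDerivAt (fun t => eval (z t) P)
      (∑ i, eval (z x) (pderiv i P) * u i) x := by
  induction P using MvPolynomial.induction_on with
  | C a => simpa using hasDerivAt_const x a
  | add p q hp hq =>
    have := hp.add hq
    simp only [map_add, add_mul, Finset.sum_add_distrib]
    exact this
  | mul_X p i hp =>
    have h1 : HasDerivAt (fun t => eval (z t) p * z t i)
        ((∑ k, eval (z x) (pderiv k p) * u k) * z x i +
          eval (z x) p * u i) x := hp.mul (hz i)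
    simp only [map_mul, eval_X, Derivation.leibniz, pderiv_X, map_add,
      smul_eq_mul]
    refine h1.congr_deriv ?_
    simp only [add_mul, Finset.sum_add_distrib]
    rw [add_comm]
    congr 1
    · rw [Finset.sum_eq_single i]
      · simp
      · intro k _ hk
        rw [Pi.single_eq_of_ne hk.symm]
        simp
      · simp
    · rw [Finset.sum_mul]
      refine Finset.sum_congr rfl ?_
      intro k _
      ring

theorem hasDerivAt_line (p : MvPolynomial (Fin 3) ℂ) (z τ : Fin 3 → ℂ) (s : ℂ) :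
    HasDerivAt (fun s : ℂ => eval (fun i => z i + s * τ i) p)
      (∑ i, eval (fun i => z i + s * τ i) (pderiv i p) * τ i) s := by
  refine hasDerivAt_eval_aux p (fun s i => z i + s * τ i) τ s ?_
  intro i
  simpa using ((hasDerivAt_id s).mul_const (τ i)).const_add (z i)

theorem eval_hom (p : MvPolynomial (Fin 3) ℂ) {e : ℕ} (hp : p.IsHomogeneous e) (c : ℂ)
    (z : Fin 3 → ℂ) : eval (fun i => c * z i) p = c ^ e * eval z p := by
  rw [eval_eq, eval_eq, Finset.mul_sum]
  refine Finset.sum_congr rfl ?_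
  intro d hd
  have h1 : ∏ i ∈ d.support, (c * z i) ^ d i = c ^ e * ∏ i ∈ d.support, z i ^ d i := by
    simp only [mul_pow]
    rw [Finset.prod_mul_distrib, Finset.prod_pow_eq_pow_sum]
    have : ∑ i ∈ d.support, d i = e := by
      have := hp (mem_support_iff.mp hd)
      rw [← this]
      simp [Finsupp.weight_apply, Finsupp.sum]
    rw [this]
  rw [h1]; ring

/-- The main estimate.  If `f` is a vector of forms of degree `e ≥ 1` and its sup norm over the unit
sphere of `ℂ³` is attained at `z0`, then the gradient of `f` at `z0` differs from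
`e * conj z0 * f z0` by at most `2 √e ‖f z0‖`. -/
theorem grad_est {n e : ℕ} (he : 0 < e) (v : Fin n → MvPolynomial (Fin 3) ℂ)
    (hv : ∀ l, (v l).IsHomogeneous e) (z0 : EuclideanSpace ℂ (Fin 3)) (hz0 : ‖z0‖ = 1)
    (hmax : ∀ z : EuclideanSpace ℂ (Fin 3), ‖z‖ = 1 →
      ‖(fun l => eval (fun i => z i) (v l) : Fin n → ℂ)‖ ≤
        ‖(fun l => eval (fun i => z0 i) (v l) : Fin n → ℂ)‖) (i : Fin 3) (l : Fin n) :
    ‖eval (fun i => z0 i) (pderiv i (v l)) -
      (e : ℂ) * (starRingEnd ℂ) (z0 i) * eval (fun i => z0 i) (v l)‖ ≤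
      2 * Real.sqrt e * ‖(fun l => eval (fun i => z0 i) (v l) : Fin n → ℂ)‖ := by
  set S : ℝ := ‖(fun l => eval (fun i => z0 i) (v l) : Fin n → ℂ)‖ with hS
  have hS0 : 0 ≤ S := norm_nonneg _
  -- bound everywhere
  have hbd : ∀ z : EuclideanSpace ℂ (Fin 3),
      ‖(fun l => eval (fun i => z i) (v l) : Fin n → ℂ)‖ ≤ S * ‖z‖ ^ e := by
    intro z
    by_cases hz : z = 0
    · subst hz
      have : (fun l => eval (fun i => (0 : EuclideanSpace ℂ (Fin 3)) i) (v l) : Fin n → ℂ) = 0 := by
        funext l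
        have := eval_hom (v l) (hv l) 0 (fun _ => 0)
        simp only [mul_zero] at this
        simpa [zero_pow he.ne'] using this
      rw [this]; simp [zero_pow he.ne']
    · have hzn : ‖z‖ ≠ 0 := norm_ne_zero_iff.mpr hz
      set w : EuclideanSpace ℂ (Fin 3) := ((‖z‖ : ℂ)⁻¹) • z with hw
      have hwn : ‖w‖ = 1 := by
        rw [hw, norm_smul, norm_inv, Complex.norm_real, norm_norm, inv_mul_cancel₀ hzn]
      have h1 := hmax w hwn
      have h2 : ∀ l, eval (fun i => z i) (v l) = (‖z‖ : ℂ) ^ e * eval (fun i => w i) (v l) := by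
        intro l
        rw [← eval_hom (v l) (hv l)]
        congr 1
        congr 1
        funext i
        rw [hw]
        simp only [PiLp.smul_apply, smul_eq_mul]
        rw [mul_inv_cancel_left₀]
        exact_mod_cast hzn
      have h3 : (fun l => eval (fun i => z i) (v l) : Fin n → ℂ) =
          ((‖z‖ : ℂ) ^ e) • (fun l => eval (fun i => w i) (v l) : Fin n → ℂ) := by
        funext l
        simp [h2 l]
      rw [h3, norm_smul, norm_pow, Complex.norm_real, norm_norm, mul_comm]
      exact mul_le_mul_of_nonneg_right h1 (by positivity)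
  -- the tangential vector
  set τ : EuclideanSpace ℂ (Fin 3) :=
    EuclideanSpace.single i (1 : ℂ) - (starRingEnd ℂ (z0 i)) • z0 with hτ
  have hinner : inner ℂ z0 τ = 0 := by
    rw [hτ, inner_sub_right, inner_smul_right, inner_self_eq_norm_sq_to_K, hz0,
      EuclideanSpace.inner_single_right]
    simp
  have hτn : ‖τ‖ ≤ 1 := by
    have h1 : EuclideanSpace.single i (1 : ℂ) = τ + (starRingEnd ℂ (z0 i)) • z0 := by
      rw [hτ]; abel
    have h2 : ‖EuclideanSpace.single i (1 : ℂ)‖ ^ 2 = ‖τ‖ ^ 2 + ‖(starRingEnd ℂ (z0 i)) • z0‖ ^ 2 := by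
      rw [h1]
      have := norm_add_sq (𝕜 := ℂ) τ ((starRingEnd ℂ (z0 i)) • z0)
      have h3 : inner ℂ τ ((starRingEnd ℂ (z0 i)) • z0) = 0 := by
        rw [inner_smul_right, inner_eq_zero_symm.mp hinner, mul_zero]
      rw [h3] at this
      simpa using this
    have h4 : ‖EuclideanSpace.single i (1 : ℂ)‖ = 1 := by simp
    rw [h4] at h2
    nlinarith [norm_nonneg τ, sq_nonneg ‖(starRingEnd ℂ (z0 i)) • z0‖]
  -- the radius
  set R : ℝ := (Real.sqrt e)⁻¹ with hR
  have hsq : 0 < Real.sqrt e := Real.sqrt_pos.mpr (by exact_mod_cast he)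
  have hRpos : 0 < R := inv_pos.mpr hsq
  have hR2 : R ^ 2 = 1 / e := by
    rw [hR, inv_pow, Real.sq_sqrt (by positivity), one_div]
  have hline : ∀ s : ℂ, ‖s‖ = R →
      ‖(fun l => eval (fun i => z0 i + s * τ i) (v l) : Fin n → ℂ)‖ ≤ 2 * S := by
    intro s hs
    have h1 := hbd (z0 + s • τ)
    have h2 : ‖z0 + s • τ‖ ^ 2 ≤ 1 + 1 / e := by
      have h3 := norm_add_sq (𝕜 := ℂ) z0 (s • τ)
      rw [inner_smul_right, hinner, mul_zero, hz0, norm_smul, hs] at h3
      have h4 : ‖z0 + s • τ‖ ^ 2 = 1 + R ^ 2 * ‖τ‖ ^ 2 := by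
        rw [h3]; simp; ring
      rw [h4, hR2]
      have h5 : ‖τ‖ ^ 2 ≤ 1 := by nlinarith [norm_nonneg τ]
      have h6 : (0:ℝ) ≤ 1 / e := by positivity
      nlinarith
    have h7 : (‖z0 + s • τ‖ ^ e) ≤ 2 := by
      have h8 : (‖z0 + s • τ‖ ^ e) ^ 2 ≤ 2 ^ 2 := by
        rw [← pow_mul, mul_comm, pow_mul]
        have h9 : (‖z0 + s • τ‖ ^ 2) ^ e ≤ (1 + 1 / (e:ℝ)) ^ e :=
          pow_le_pow_left₀ (by positivity) h2 e
        have h10 : (1 + 1 / (e:ℝ)) ^ e ≤ Real.exp 1 := by
          have h11 : 1 + 1 / (e:ℝ) ≤ Real.exp (1 / e) := by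
            have := Real.add_one_le_exp (1 / (e:ℝ)); linarith
          calc (1 + 1 / (e:ℝ)) ^ e ≤ (Real.exp (1 / e)) ^ e :=
                pow_le_pow_left₀ (by positivity) h11 e
            _ = Real.exp 1 := by
                rw [← Real.exp_nat_mul]; congr 1; field_simp
        have h12 : Real.exp 1 ≤ 4 := by
          have := Real.exp_one_lt_d9; linarith
        linarith
      exact (pow_le_pow_iff_left₀ (by positivity) (by norm_num) (by norm_num)).mp h8
    have h13 : (fun l => eval (fun i => z0 i + s * τ i) (v l) : Fin n → ℂ) =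
        (fun l => eval (fun i => (z0 + s • τ) i) (v l) : Fin n → ℂ) := by
      funext l
      congr 1
    rw [h13]
    calc _ ≤ S * ‖z0 + s • τ‖ ^ e := h1
      _ ≤ S * 2 := by gcongr
      _ = 2 * S := by ring
  -- derivative in the tangential direction
  have hder : ‖∑ k, eval (fun i => z0 i) (pderiv k (v l)) * τ k‖ ≤ 2 * S / R := by
    have h1 : deriv (fun s : ℂ => eval (fun i => z0 i + s * τ i) (v l)) 0 =
        ∑ k, eval (fun i => z0 i) (pderiv k (v l)) * τ k := by
      rw [(hasDerivAt_line (v l) (fun i => z0 i) (fun i => τ i) 0).deriv]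
      simp
    rw [← h1]
    apply Complex.norm_deriv_le_of_forall_mem_sphere_norm_le hRpos
    · have : Differentiable ℂ (fun s : ℂ => eval (fun i => z0 i + s * τ i) (v l)) :=
        fun s => (hasDerivAt_line (v l) (fun i => z0 i) (fun i => τ i) s).differentiableAt
      exact this.diffContOnCl
    · intro s hs
      have hs' : ‖s‖ = R := by simpa using hs
      exact (norm_le_pi_norm (fun l => eval (fun i => z0 i + s * τ i) (v l) : Fin n → ℂ) l).trans
        (hline s hs')
  -- conclude
  have heuler : ∑ k, z0 k * eval (fun i => z0 i) (pderiv k (v l)) =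
      (e : ℂ) * eval (fun i => z0 i) (v l) := by
    have := congrArg (eval (fun i => z0 i)) (hv l).sum_X_mul_pderiv
    simpa [map_sum, map_mul, eval_X, nsmul_eq_mul] using this
  have hτk : ∀ k, τ k = (if k = i then 1 else 0) - (starRingEnd ℂ (z0 i)) * z0 k := by
    intro k
    rw [hτ]
    simp [EuclideanSpace.single_apply]
  have hsum : ∑ k, eval (fun i => z0 i) (pderiv k (v l)) * τ k =
      eval (fun i => z0 i) (pderiv i (v l)) -
      (e : ℂ) * (starRingEnd ℂ) (z0 i) * eval (fun i => z0 i) (v l) := by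
    simp only [hτk, mul_sub, Finset.sum_sub_distrib]
    congr 1
    · simp
    · have : ∀ k, eval (fun i => z0 i) (pderiv k (v l)) * ((starRingEnd ℂ (z0 i)) * z0 k) =
          (starRingEnd ℂ (z0 i)) * (z0 k * eval (fun i => z0 i) (pderiv k (v l))) := by
        intro k; ring
      simp only [this]
      rw [← Finset.mul_sum, heuler]
      ring
  rw [← hsum]
  refine hder.trans (le_of_eq ?_)
  rw [hR]
  field_simp

end Pool.Agent.V1140.ML
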