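import Mathlib
import Pool.Agent.V1140.ML.Poly

/-!
Key lemma: there are no three real-linear maps from a real space of dimension `2n` to `ℂⁿ`
(`n ≥ 1`) whose nontrivial complex combinations are all injective.
-/

set_option autoImplicit false

namespace Pool.Agent.V1140.ML

open MvPolynomial

/-- `∑ conj(a j) x + a j y` for a family `a` of vectors. -/
noncomputable def NN {n N : ℕ} (a : Fin N → Fin n → ℂ) (x y : Fin n → ℂ) : Fin N → ℂ :=
  fun j => ∑ l, (starRingEnd ℂ (a j l)) * x l + ∑ l, a j l * y l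

/-- real spanning families -/
def RealSpan {n N : ℕ} (a : Fin N → Fin n → ℂ) : Prop :=
  ∀ t : Fin N → ℝ, (∀ l, ∑ j, (t j : ℂ) * a j l = 0) → t = 0

theorem nondeg {n : ℕ} (a : Fin (2 * n) → Fin n → ℂ) (ha : RealSpan a) (x y : Fin n → ℂ)
    (h : NN a x y = 0) : x = 0 ∧ y = 0 := by
  let T : (Fin (2 * n) → ℝ) →ₗ[ℝ] (Fin n → ℂ) :=
    { toFun := fun t l => ∑ j, (t j : ℂ) * a j l
      map_add' := by
        intro s t; funext l
        simp [add_mul, Finset.sum_add_distrib]
      map_smul' := by
        intro c t; funext l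
        simp [Finset.mul_sum, mul_assoc] }
  have hinj : Function.Injective T := by
    rw [← LinearMap.ker_eq_bot, LinearMap.ker_eq_bot']
    intro t ht
    exact ha t (fun l => congrFun ht l)
  have hfr : Module.finrank ℝ (Fin (2 * n) → ℝ) = Module.finrank ℝ (Fin n → ℂ) := by
    rw [Module.finrank_pi, Module.finrank_pi_fintype]
    simp [Complex.finrank_real_complex, mul_comm]
  have hsurj : Function.Surjective T :=
    (LinearMap.injective_iff_surjective_of_finrank_eq_finrank hfr).mp hinj
  have hall : ∀ b : Fin n → ℂ, ∑ l, (starRingEnd ℂ (b l)) * x l + ∑ l, b l * y l = 0 := by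
    intro b
    obtain ⟨t, rfl⟩ := hsurj b
    have h1 : ∀ l, T t l = ∑ j, (t j : ℂ) * a j l := fun l => rfl
    simp only [h1, map_sum, map_mul, Complex.conj_ofReal, Finset.sum_mul]
    rw [Finset.sum_comm]
    rw [Finset.sum_comm (s := Finset.univ (α := Fin n))]
    rw [← Finset.sum_add_distrib]
    apply Finset.sum_eq_zero
    intro j _
    have h2 := congrFun h j
    simp only [NN, Pi.zero_apply] at h2
    have h3 : ∑ l, (t j : ℂ) * (starRingEnd ℂ) (a j l) * x l + ∑ l, (t j : ℂ) * a j l * y l =
        (t j : ℂ) * (∑ l, (starRingEnd ℂ (a j l)) * x l + ∑ l, a j l * y l) := by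
      rw [mul_add, Finset.mul_sum, Finset.mul_sum]
      simp only [mul_assoc]
    rw [h3, h2, mul_zero]
  have key : ∀ l, x l = 0 ∧ y l = 0 := by
    intro l
    have h1 := hall (Pi.single l 1)
    have h2 := hall (Pi.single l Complex.I)
    have e1 : ∀ (c : ℂ) (w : Fin n → ℂ), ∑ k, (starRingEnd ℂ ((Pi.single l c : Fin n → ℂ) k)) * w k =
        (starRingEnd ℂ c) * w l := by
      intro c w
      rw [Finset.sum_eq_single l]
      · simp
      · intro k _ hk
        rw [Pi.single_eq_of_ne hk]; simp
      · simp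
    have e2 : ∀ (c : ℂ) (w : Fin n → ℂ), ∑ k, ((Pi.single l c : Fin n → ℂ) k) * w k =
        c * w l := by
      intro c w
      rw [Finset.sum_eq_single l]
      · simp
      · intro k _ hk
        rw [Pi.single_eq_of_ne hk]; simp
      · simp
    rw [e1, e2] at h1 h2
    simp only [map_one, one_mul, Complex.conj_I] at h1 h2
    have h3 : Complex.I * (y l - x l) = 0 := by linear_combination h2
    have h4 : y l - x l = 0 := by
      rcases mul_eq_zero.mp h3 with h | h
      · exact absurd h Complex.I_ne_zero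
      · exact h
    constructor
    · linear_combination (1/2 : ℂ) * h1 - (1/2 : ℂ) * h4
    · linear_combination (1/2 : ℂ) * h1 + (1/2 : ℂ) * h4
  exact ⟨funext fun l => (key l).1, funext fun l => (key l).2⟩

/-- the family `a_j(z)` -/
noncomputable def aa {n N : ℕ} (α : Fin 3 → Fin N → Fin n → ℂ) (z : Fin 3 → ℂ) :
    Fin N → Fin n → ℂ := fun j l => ∑ i, z i * α i j l

theorem lower_bound {n : ℕ} (hn : 0 < n) (α : Fin 3 → Fin (2 * n) → Fin n → ℂ)
    (hα : ∀ z : Fin 3 → ℂ, z ≠ 0 → RealSpan (aa α z)) :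
    ∃ c : ℝ, 0 < c ∧ ∀ z : EuclideanSpace ℂ (Fin 3), ‖z‖ = 1 → ∀ x y : Fin n → ℂ,
      c * ‖(x, y)‖ ≤ ‖NN (aa α (fun i => z i)) x y‖ := by
  have : Nonempty (Fin n) := ⟨⟨0, hn⟩⟩
  let F : (EuclideanSpace ℂ (Fin 3)) × ((Fin n → ℂ) × (Fin n → ℂ)) → ℝ := fun p =>
    ‖NN (aa α (fun i => p.1 i)) p.2.1 p.2.2‖
  have hFc : Continuous F := by
    apply Continuous.norm
    apply continuous_pi
    intro j
    simp only [NN, aa]
    fun_prop
  let K : Set ((EuclideanSpace ℂ (Fin 3)) × ((Fin n → ℂ) × (Fin n → ℂ))) :=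
    Metric.sphere 0 1 ×ˢ Metric.sphere 0 1
  have hK : IsCompact K := (isCompact_sphere _ _).prod (isCompact_sphere _ _)
  have hKne : K.Nonempty := by
    refine ⟨(EuclideanSpace.single 0 1, (fun _ => 1, 0)), ?_, ?_⟩
    · simp
    · simp [Prod.norm_def]
  obtain ⟨p, hp, hmin⟩ := hK.exists_isMinOn hKne hFc.continuousOn
  have hpos : 0 < F p := by
    rcases (norm_nonneg (NN (aa α (fun i => p.1 i)) p.2.1 p.2.2)).lt_or_eq with h | h
    · exact h
    · exfalso
      have h1 : NN (aa α (fun i => p.1 i)) p.2.1 p.2.2 = 0 := norm_eq_zero.mp h.symm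
      have hz : (fun i => p.1 i : Fin 3 → ℂ) ≠ 0 := by
        intro hz
        have h2 : p.1 = 0 := by
          ext i; exact congrFun hz i
        have h3 : ‖p.1‖ = 1 := by simpa using hp.1
        rw [h2, norm_zero] at h3
        norm_num at h3
      obtain ⟨hx, hy⟩ := nondeg _ (hα _ hz) _ _ h1
      have h3 : ‖p.2‖ = 1 := by simpa using hp.2
      have h4 : p.2 = 0 := Prod.ext hx hy
      rw [h4, norm_zero] at h3
      norm_num at h3
  refine ⟨F p, hpos, ?_⟩
  intro z hz x y
  by_cases hxy : (x, y) = 0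
  · rw [hxy]; simp
  · have hne : ‖(x, y)‖ ≠ 0 := norm_ne_zero_iff.mpr hxy
    set r : ℝ := ‖(x, y)‖ with hr
    have hrpos : 0 < r := lt_of_le_of_ne (norm_nonneg _) (Ne.symm hne)
    have hmem : (z, (((r : ℂ)⁻¹) • x, ((r : ℂ)⁻¹) • y)) ∈ K := by
      refine ⟨by simpa using hz, ?_⟩
      have : (((r : ℂ)⁻¹) • x, ((r : ℂ)⁻¹) • y) = ((r : ℂ)⁻¹) • (x, y) := rfl
      rw [mem_sphere_zero_iff_norm, this, norm_smul, norm_inv, Complex.norm_real, ← hr,
        Real.norm_of_nonneg hrpos.le, inv_mul_cancel₀ hne]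
    have h1 := hmin hmem
    have h2 : F (z, (((r : ℂ)⁻¹) • x, ((r : ℂ)⁻¹) • y)) =
        r⁻¹ * ‖NN (aa α (fun i => z i)) x y‖ := by
      have h3 : NN (aa α (fun i => z i)) (((r : ℂ)⁻¹) • x) (((r : ℂ)⁻¹) • y) =
          ((r : ℂ)⁻¹) • NN (aa α (fun i => z i)) x y := by
        funext j
        simp only [NN, Pi.smul_apply, smul_eq_mul, mul_add, Finset.mul_sum]
        congr 1 <;> refine Finset.sum_congr rfl fun l _ => ?_ <;> ring
      show ‖NN (aa α (fun i => z i)) (((r : ℂ)⁻¹) • x) (((r : ℂ)⁻¹) • y)‖ = _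
      rw [h3, norm_smul, norm_inv, Complex.norm_real, Real.norm_of_nonneg hrpos.le]
    have h1' : F p ≤ r⁻¹ * ‖NN (aa α (fun i => z i)) x y‖ := by
      rw [← h2]; exact h1
    calc F p * r ≤ (r⁻¹ * ‖NN (aa α (fun i => z i)) x y‖) * r := by gcongr
      _ = ‖NN (aa α (fun i => z i)) x y‖ := by field_simp

/-- the linear system, solvable by dimension count -/
theorem exists_solution {n : ℕ} (hn : 0 < n) (α : Fin 3 → Fin (2 * n) → Fin n → ℂ) (k : ℕ) :
    ∃ v w : Fin n → MvPolynomial (Fin 3) ℂ, (∀ l, (v l).IsHomogeneous (k + 2)) ∧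
      (∀ l, (w l).IsHomogeneous k) ∧ ((v, w) ≠ 0) ∧
      ∀ j, ∑ i, ∑ l, C (starRingEnd ℂ (α i j l)) * pderiv i (v l) +
        ∑ i, ∑ l, C (α i j l) * (X i * w l) = 0 := by
  let H : ℕ → Submodule ℂ (MvPolynomial (Fin 3) ℂ) := fun k => homogeneousSubmodule (Fin 3) ℂ k
  let Φ : ((Fin n → H (k + 2)) × (Fin n → H k)) →ₗ[ℂ] (Fin (2 * n) → H (k + 1)) :=
    { toFun := fun p j => ⟨∑ i, ∑ l, C (starRingEnd ℂ (α i j l)) * pderiv i (p.1 l : MvPolynomial (Fin 3) ℂ) +
        ∑ i, ∑ l, C (α i j l) * (X i * (p.2 l : MvPolynomial (Fin 3) ℂ)), by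
          show IsHomogeneous _ (k + 1)
          apply IsHomogeneous.add
          · apply IsHomogeneous.sum
            intro i _
            apply IsHomogeneous.sum
            intro l _
            apply IsHomogeneous.C_mul
            have := (p.1 l).2
            exact IsHomogeneous.pderiv (n := k + 2) this
          · apply IsHomogeneous.sum
            intro i _
            apply IsHomogeneous.sum
            intro l _
            apply IsHomogeneous.C_mul
            have key : ∀ q : MvPolynomial (Fin 3) ℂ, q.IsHomogeneous k →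
                (X i * q).IsHomogeneous (k + 1) := by
              intro q hq
              have h1 := (isHomogeneous_X ℂ i).mul hq
              rwa [add_comm] at h1
            exact key _ (p.2 l).2⟩
      map_add' := by
        intro p q
        funext j
        apply Subtype.ext
        simp only [Prod.fst_add, Prod.snd_add, Pi.add_apply, Submodule.coe_add, map_add, mul_add,
          Finset.sum_add_distrib]
        ring
      map_smul' := by
        intro c p
        funext j
        apply Subtype.ext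
        simp only [Prod.smul_fst, Prod.smul_snd, Pi.smul_apply, SetLike.val_smul, Derivation.map_smul,
          RingHom.id_apply, mul_smul_comm, smul_add, Finset.smul_sum] }
  have hfd : ∀ m, Module.Finite ℂ (H m) := by
    intro m
    apply Module.finite_of_finrank_pos
    show 0 < Module.finrank ℂ (homogeneousSubmodule (Fin 3) ℂ m)
    rw [finrank_forms]
    exact Nat.choose_pos (by omega)
  have := hfd k
  have := hfd (k + 1)
  have := hfd (k + 2)
  have hlt : Module.finrank ℂ (Fin (2 * n) → H (k + 1)) <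
      Module.finrank ℂ ((Fin n → H (k + 2)) × (Fin n → H k)) := by
    rw [Module.finrank_prod, Module.finrank_pi_fintype, Module.finrank_pi_fintype,
      Module.finrank_pi_fintype]
    have e1 : ∀ m, Module.finrank ℂ (H m) = (m + 2).choose 2 := fun m => finrank_forms m
    simp only [e1, Finset.sum_const, Finset.card_univ, Fintype.card_fin, smul_eq_mul]
    have f1 : (k + 2 + 2).choose 2 = (k + 3) + (k + 2) + (k + 2).choose 2 := by
      rw [Nat.choose_succ_succ' (k + 3) 1, Nat.choose_succ_succ' (k + 2) 1]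
      simp; ring
    have f2 : (k + 1 + 2).choose 2 = (k + 2) + (k + 2).choose 2 := by
      rw [Nat.choose_succ_succ' (k + 2) 1]
      simp
    rw [f1, f2]
    nlinarith
  have hker : LinearMap.ker Φ ≠ ⊥ := LinearMap.ker_ne_bot_of_finrank_lt hlt
  obtain ⟨p, hp, hp0⟩ := (Submodule.ne_bot_iff _).mp hker
  refine ⟨fun l => (p.1 l : MvPolynomial (Fin 3) ℂ), fun l => (p.2 l : MvPolynomial (Fin 3) ℂ),
    fun l => (p.1 l).2, fun l => (p.2 l).2, ?_, ?_⟩
  · intro h
    apply hp0
    have h1 := congrArg Prod.fst h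
    have h2 := congrArg Prod.snd h
    refine Prod.ext ?_ ?_
    · funext l
      apply Subtype.ext
      exact congrFun h1 l
    · funext l
      apply Subtype.ext
      exact congrFun h2 l
  · intro j
    have h1 := congrFun (LinearMap.mem_ker.mp hp) j
    have h2 := congrArg Subtype.val h1
    exact h2

theorem zero_of_sphere (p : MvPolynomial (Fin 3) ℂ) {e : ℕ} (he : 0 < e) (hp : p.IsHomogeneous e)
    (h : ∀ z : EuclideanSpace ℂ (Fin 3), ‖z‖ = 1 → eval (fun i => z i) p = 0) : p = 0 := by
  apply MvPolynomial.funext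
  intro z
  rw [map_zero]
  by_cases hz : z = 0
  · have := eval_hom p hp 0 z
    simp only [zero_mul, zero_pow he.ne'] at this
    rw [hz]
    exact this
  · set y : EuclideanSpace ℂ (Fin 3) := WithLp.toLp 2 z with hy
    have hy0 : y ≠ 0 := by
      intro h0
      apply hz
      have : (WithLp.toLp 2 z : EuclideanSpace ℂ (Fin 3)) = WithLp.toLp 2 0 := h0
      funext i
      have := congrArg (fun w : EuclideanSpace ℂ (Fin 3) => w i) this
      simpa using this
    have hn : ‖y‖ ≠ 0 := norm_ne_zero_iff.mpr hy0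
    have h1 := h (((‖y‖ : ℂ)⁻¹) • y) (by
      rw [norm_smul, norm_inv, Complex.norm_real, norm_norm, inv_mul_cancel₀ hn])
    have h2 : (fun i => (((‖y‖ : ℂ)⁻¹) • y) i) = fun i => ((‖y‖ : ℂ)⁻¹) * z i := by
      funext i
      simp [hy]
    rw [h2, eval_hom p hp] at h1
    have h3 : ((‖y‖ : ℂ)⁻¹) ^ e ≠ 0 := by
      apply pow_ne_zero
      apply inv_ne_zero
      exact_mod_cast hn
    rcases mul_eq_zero.mp h1 with h | h
    · exact absurd h h3
    · exact h

theorem no_three {n : ℕ} (hn : 0 < n) (α : Fin 3 → Fin (2 * n) → Fin n → ℂ)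
    (hα : ∀ z : Fin 3 → ℂ, z ≠ 0 → RealSpan (aa α z)) : False := by
  have : Nonempty (Fin n) := ⟨⟨0, hn⟩⟩
  obtain ⟨c, hc, hlow⟩ := lower_bound hn α hα
  set K : ℝ := ∑ j, ∑ i, ∑ l, ‖α i j l‖ with hK
  have hK0 : 0 ≤ K := by positivity
  obtain ⟨k0, hk0⟩ := exists_nat_gt ((2 * K / c) ^ 2)
  set k : ℕ := k0 + 1 with hk
  obtain ⟨v, w, hv, hw, hne, heq⟩ := exists_solution hn α k
  set e : ℕ := k + 2 with he
  have heR : (2 * K / c) ^ 2 < (e : ℝ) := by
    rw [he, hk]; push_cast; linarith
  -- maximum point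
  let f : EuclideanSpace ℂ (Fin 3) → (Fin n → ℂ) := fun z l => eval (fun i => z i) (v l)
  have hfc : Continuous (fun z => ‖f z‖) := by
    apply Continuous.norm
    apply continuous_pi
    intro l
    have h1 : Continuous (fun z : Fin 3 → ℂ => eval z (v l)) := MvPolynomial.continuous_eval _
    exact h1.comp (by fun_prop)
  have hcomp : IsCompact (Metric.sphere (0 : EuclideanSpace ℂ (Fin 3)) 1) := isCompact_sphere _ _
  obtain ⟨z0, hz0, hmax⟩ := hcomp.exists_isMaxOn
    ⟨EuclideanSpace.single 0 1, by simp⟩ hfc.continuousOn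
  have hz0' : ‖z0‖ = 1 := by simpa using hz0
  have hmax' : ∀ z : EuclideanSpace ℂ (Fin 3), ‖z‖ = 1 → ‖f z‖ ≤ ‖f z0‖ := by
    intro z hz
    exact hmax (by simpa using hz)
  have hev : ∀ (z : Fin 3 → ℂ) (j : Fin (2 * n)),
      ∑ i, ∑ l, (starRingEnd ℂ (α i j l)) * eval z (pderiv i (v l)) +
        ∑ i, ∑ l, α i j l * (z i * eval z (w l)) = 0 := by
    intro z j
    have := congrArg (eval z) (heq j)
    simpa [map_sum] using this
  rcases (norm_nonneg (f z0)).lt_or_eq with hS | hS
  · -- main case
    set S : ℝ := ‖f z0‖ with hSdef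
    have hgrad : ∀ i l, ‖eval (fun i => z0 i) (pderiv i (v l)) -
      (e : ℂ) * (starRingEnd ℂ) (z0 i) * eval (fun i => z0 i) (v l)‖ ≤
      2 * Real.sqrt e * S := fun i l => grad_est (by omega) v hv z0 hz0' hmax' i l
    have hlow1 := hlow z0 hz0' ((e : ℂ) • f z0) (fun l => eval (fun i => z0 i) (w l))
    have hup : ‖NN (aa α (fun i => z0 i)) ((e : ℂ) • f z0) (fun l => eval (fun i => z0 i) (w l))‖ ≤
        K * (2 * Real.sqrt e * S) := by
      rw [pi_norm_le_iff_of_nonneg (by positivity)]
      intro j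
      have h1 : NN (aa α (fun i => z0 i)) ((e : ℂ) • f z0) (fun l => eval (fun i => z0 i) (w l)) j =
          - ∑ i, ∑ l, (starRingEnd ℂ (α i j l)) * (eval (fun i => z0 i) (pderiv i (v l)) -
            (e : ℂ) * (starRingEnd ℂ) (z0 i) * eval (fun i => z0 i) (v l)) := by
        have h2 := hev (fun i => z0 i) j
        simp only [NN, aa, Pi.smul_apply, smul_eq_mul, map_sum, map_mul, Finset.sum_mul, mul_sub,
          Finset.sum_sub_distrib]
        rw [Finset.sum_comm (s := Finset.univ (α := Fin n)),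
          Finset.sum_comm (s := Finset.univ (α := Fin n))]
        have h3 : ∑ i, ∑ l, (starRingEnd ℂ) (z0 i) * (starRingEnd ℂ) (α i j l) * ((e:ℂ) * f z0 l) =
            ∑ i, ∑ l, (starRingEnd ℂ) (α i j l) *
              ((e:ℂ) * (starRingEnd ℂ) (z0 i) * eval (fun i => z0 i) (v l)) := by
          refine Finset.sum_congr rfl fun i _ => Finset.sum_congr rfl fun l _ => ?_
          show _ * ((e:ℂ) * eval (fun i => z0 i) (v l)) = _
          ring
        have h4 : ∑ i, ∑ l, z0 i * α i j l * eval (fun i => z0 i) (w l) =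
            ∑ i, ∑ l, α i j l * (z0 i * eval (fun i => z0 i) (w l)) := by
          refine Finset.sum_congr rfl fun i _ => Finset.sum_congr rfl fun l _ => ?_
          ring
        rw [h3, h4]
        linear_combination h2
      rw [h1, norm_neg]
      calc ‖∑ i, ∑ l, (starRingEnd ℂ (α i j l)) * (eval (fun i => z0 i) (pderiv i (v l)) -
            (e : ℂ) * (starRingEnd ℂ) (z0 i) * eval (fun i => z0 i) (v l))‖
          ≤ ∑ i, ∑ l, ‖α i j l‖ * (2 * Real.sqrt e * S) := by
            refine (norm_sum_le _ _).trans (Finset.sum_le_sum fun i _ => ?_)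
            refine (norm_sum_le _ _).trans (Finset.sum_le_sum fun l _ => ?_)
            rw [norm_mul, RCLike.norm_conj]
            exact mul_le_mul_of_nonneg_left (hgrad i l) (norm_nonneg _)
        _ = (∑ i, ∑ l, ‖α i j l‖) * (2 * Real.sqrt e * S) := by
            rw [Finset.sum_mul]
            refine Finset.sum_congr rfl fun i _ => ?_
            rw [Finset.sum_mul]
        _ ≤ K * (2 * Real.sqrt e * S) := by
            apply mul_le_mul_of_nonneg_right _ (by positivity)
            rw [hK]
            exact Finset.single_le_sum (f := fun j => ∑ i, ∑ l, ‖α i j l‖)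
              (fun j _ => by positivity) (Finset.mem_univ j)
    have hlow2 : c * (e * S) ≤
        ‖NN (aa α (fun i => z0 i)) ((e : ℂ) • f z0) (fun l => eval (fun i => z0 i) (w l))‖ := by
      refine le_trans ?_ hlow1
      apply mul_le_mul_of_nonneg_left _ hc.le
      have : ‖((e : ℂ) • f z0)‖ = e * S := by
        rw [norm_smul]; simp [hSdef]
      rw [← this]
      exact le_max_left _ _
    have h5 : c * (e * S) ≤ K * (2 * Real.sqrt e * S) := hlow2.trans hup
    have hepos : (0:ℝ) < e := by rw [he]; positivity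
    have hsqpos : 0 < Real.sqrt e := Real.sqrt_pos.mpr hepos
    have hsq : Real.sqrt e * Real.sqrt e = e := Real.mul_self_sqrt hepos.le
    have h6 : c * Real.sqrt e ≤ 2 * K := by
      have h7 : (c * Real.sqrt e) * (Real.sqrt e * S) ≤ (2 * K) * (Real.sqrt e * S) := by
        calc (c * Real.sqrt e) * (Real.sqrt e * S) = c * ((Real.sqrt e * Real.sqrt e) * S) := by ring
          _ = c * (e * S) := by rw [hsq]
          _ ≤ K * (2 * Real.sqrt e * S) := h5
          _ = (2 * K) * (Real.sqrt e * S) := by ring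
      exact le_of_mul_le_mul_right h7 (by positivity)
    have h8 : Real.sqrt e ≤ 2 * K / c := by
      rw [le_div_iff₀ hc]; linarith
    have h9 : (e : ℝ) ≤ (2 * K / c) ^ 2 := by
      rw [← hsq]
      nlinarith [hsqpos]
    linarith
  · -- v vanishes
    have hf0 : ∀ z : EuclideanSpace ℂ (Fin 3), ‖z‖ = 1 → f z = 0 := by
      intro z hz
      have := hmax' z hz
      rw [← hS] at this
      exact norm_le_zero_iff.mp this
    have hv0 : v = 0 := by
      funext l
      exact zero_of_sphere (v l) (by omega) (hv l) (fun z hz => congrFun (hf0 z hz) l)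
    have hw0 : w = 0 := by
      funext l
      apply zero_of_sphere (w l) (e := k) (by omega) (hw l)
      intro z hz
      have hz' : (fun i => z i : Fin 3 → ℂ) ≠ 0 := by
        intro h0
        have h2 : z = 0 := by
          ext i; exact congrFun h0 i
        rw [h2, norm_zero] at hz
        norm_num at hz
      have h1 : NN (aa α (fun i => z i)) 0 (fun l => eval (fun i => z i) (w l)) = 0 := by
        funext j
        have h2 := hev (fun i => z i) j
        rw [hv0] at h2
        simp only [Pi.zero_apply, map_zero, mul_zero, Finset.sum_const_zero, zero_add] at h2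
        simp only [NN, aa, Pi.zero_apply, mul_zero, Finset.sum_const_zero, zero_add, Finset.sum_mul]
        rw [Finset.sum_comm]
        rw [← h2]
        refine Finset.sum_congr rfl fun i _ => Finset.sum_congr rfl fun l _ => ?_
        ring
      exact congrFun (nondeg _ (hα _ hz') _ _ h1).2 l
    apply hne
    rw [hv0, hw0]
    rfl

end Pool.Agent.V1140.ML
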