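import Mathlib
import Pool.Agent.V1140.ML.Key

/-!
Linear algebra: a real subspace of `M_n(ℂ)` of dimension `2mn`, `m < n`, `n ≥ 3`, contains a nonzero
matrix whose kernel has dimension at least `m`.
-/

set_option autoImplicit false

namespace Pool.Agent.V1140.ML

open Module

theorem no_three' {n : ℕ} (hn : 0 < n) {W : Type*} [AddCommGroup W] [Module ℝ W]
    [FiniteDimensional ℝ W] (hW : 2 * n ≤ finrank ℝ W)
    (A : W →ₗ[ℝ] (Fin 3 → Fin n → ℂ))
    (hA : ∀ w, w ≠ 0 → ∀ z : Fin 3 → ℂ, z ≠ 0 → ∃ l, ∑ i, z i * A w i l ≠ 0) : False := by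
  let b := finBasis ℝ W
  let w : Fin (2 * n) → W := fun j => b (Fin.castLE hW j)
  have hw : LinearIndependent ℝ w := b.linearIndependent.comp _ (Fin.castLE_injective hW)
  apply no_three hn (fun i j l => A (w j) i l)
  intro z hz t ht
  by_contra ht0
  have h1 : ∑ j, t j • w j ≠ 0 := by
    intro h0
    apply ht0
    funext j
    exact Fintype.linearIndependent_iff.mp hw t h0 j
  obtain ⟨l, hl⟩ := hA _ h1 z hz
  apply hl
  rw [← ht l]
  simp only [map_sum, map_smul, Finset.sum_apply, Pi.smul_apply, aa, Complex.real_smul,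
    Finset.mul_sum]
  rw [Finset.sum_comm]
  refine Finset.sum_congr rfl fun j _ => Finset.sum_congr rfl fun i _ => ?_
  ring

/-- the dimension of the kernel of a matrix -/
noncomputable def nul {n : ℕ} (X : Matrix (Fin n) (Fin n) ℂ) : ℕ :=
  finrank ℂ (LinearMap.ker (Matrix.mulVecLin X))

theorem case_one {n m : ℕ} (hm : 1 ≤ m) (hmn : m + 2 ≤ n)
    (V : Submodule ℝ (Matrix (Fin n) (Fin n) ℂ)) (hV : finrank ℝ V = 2 * m * n)
    (H : ∀ X ∈ V, X ≠ 0 → nul X < m) : False := by
  -- columns with index below m-1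
  let e : Fin (m - 1) → Fin n := fun b => ⟨b.1, by omega⟩
  let ι : Fin 3 → Fin n := fun i => ⟨m - 1 + i.1, by omega⟩
  let ρ : V →ₗ[ℝ] (Fin (m - 1) → Fin n → ℂ) :=
    { toFun := fun X b l => (X : Matrix (Fin n) (Fin n) ℂ) l (e b)
      map_add' := by intro X Y; rfl
      map_smul' := by intro c X; rfl }
  have hker : 2 * n ≤ finrank ℝ (LinearMap.ker ρ) := by
    have h1 := LinearMap.finrank_range_add_finrank_ker ρ
    have h2 : finrank ℝ (LinearMap.range ρ) ≤ finrank ℝ (Fin (m - 1) → Fin n → ℂ) :=
      Submodule.finrank_le _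
    have hcn : finrank ℝ (Fin n → ℂ) = n * 2 := by
      rw [Module.finrank_pi_fintype]
      simp [Complex.finrank_real_complex]
    have h3 : finrank ℝ (Fin (m - 1) → Fin n → ℂ) = (m - 1) * (n * 2) := by
      rw [Module.finrank_pi_fintype]
      simp [hcn]
    obtain ⟨m', rfl⟩ : ∃ m', m = m' + 1 := ⟨m - 1, by omega⟩
    simp only [Nat.add_sub_cancel] at h1 h2 h3
    rw [h3] at h2
    rw [hV] at h1
    nlinarith
  let A : LinearMap.ker ρ →ₗ[ℝ] (Fin 3 → Fin n → ℂ) :=
    { toFun := fun X i l => (X.1 : Matrix (Fin n) (Fin n) ℂ) l (ι i)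
      map_add' := by intro X Y; rfl
      map_smul' := by intro c X; rfl }
  apply no_three' (n := n) (W := LinearMap.ker ρ) (by omega) hker A
  intro w hw z hz
  by_contra hcon
  push Not at hcon
  have hX0 : (w.1 : Matrix (Fin n) (Fin n) ℂ) ≠ 0 := by
    intro h; apply hw; apply Subtype.ext; apply Subtype.ext; exact h
  have hlt := H _ w.1.2 hX0
  set X : Matrix (Fin n) (Fin n) ℂ := (w.1 : Matrix (Fin n) (Fin n) ℂ) with hX
  have hcol : ∀ b l, X l (e b) = 0 := by
    intro b l
    have h1 : ρ w.1 = 0 := w.2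
    exact congrFun (congrFun h1 b) l
  let u : Fin n → ℂ := ∑ i, z i • Pi.single (ι i) (1 : ℂ)
  let Ψ : ((Fin (m - 1) → ℂ) × ℂ) →ₗ[ℂ] (Fin n → ℂ) :=
    { toFun := fun p => (∑ b, p.1 b • Pi.single (e b) (1 : ℂ)) + p.2 • u
      map_add' := by
        intro p q
        simp only [Prod.fst_add, Prod.snd_add, Pi.add_apply, add_smul, Finset.sum_add_distrib]
        abel
      map_smul' := by
        intro c p
        simp only [Prod.smul_fst, Prod.smul_snd, Pi.smul_apply, smul_eq_mul, mul_smul,
          RingHom.id_apply, smul_add, Finset.smul_sum] }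
  have heinj : ∀ b b', e b = e b' → b = b' := by
    intro b b' h
    have := congrArg Fin.val h
    exact Fin.ext this
  have hιinj : ∀ b b', ι b = ι b' → b = b' := by
    intro b b' h
    have := congrArg Fin.val h
    simp only [ι] at this
    exact Fin.ext (by omega)
  have heι : ∀ b i, e b ≠ ι i := by
    intro b i h
    have := congrArg Fin.val h
    simp only [e, ι] at this
    omega
  have hu1 : ∀ b, u (e b) = 0 := by
    intro b
    simp only [u, Finset.sum_apply, Pi.smul_apply, smul_eq_mul]
    apply Finset.sum_eq_zero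
    intro i _
    rw [Pi.single_eq_of_ne (heι b i)]
    simp
  have hu2 : ∀ i, u (ι i) = z i := by
    intro i
    simp only [u, Finset.sum_apply, Pi.smul_apply, smul_eq_mul]
    rw [Finset.sum_eq_single i]
    · simp
    · intro k _ hk
      rw [Pi.single_eq_of_ne (fun h => hk (hιinj _ _ h).symm)]
      simp
    · simp
  have hΨ1 : ∀ p b, Ψ p (e b) = p.1 b := by
    intro p b
    show ((∑ b, p.1 b • Pi.single (e b) (1 : ℂ)) + p.2 • u : Fin n → ℂ) (e b) = _
    simp only [Pi.add_apply, Finset.sum_apply, Pi.smul_apply, smul_eq_mul, hu1, mul_zero, add_zero]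
    rw [Finset.sum_eq_single b]
    · simp
    · intro k _ hk
      rw [Pi.single_eq_of_ne (fun h => hk (heinj _ _ h).symm)]
      simp
    · simp
  have hΨ2 : ∀ p i, Ψ p (ι i) = p.2 * z i := by
    intro p i
    show ((∑ b, p.1 b • Pi.single (e b) (1 : ℂ)) + p.2 • u : Fin n → ℂ) (ι i) = _
    simp only [Pi.add_apply, Finset.sum_apply, Pi.smul_apply, smul_eq_mul, hu2]
    rw [Finset.sum_eq_zero]
    · simp
    · intro b _
      rw [Pi.single_eq_of_ne (heι b i).symm]
      simp
  have hΨinj : Function.Injective Ψ := by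
    rw [← LinearMap.ker_eq_bot, LinearMap.ker_eq_bot']
    intro p hp
    have h1 : p.1 = 0 := by
      funext b
      rw [← hΨ1 p b, hp]; rfl
    have h2 : p.2 = 0 := by
      obtain ⟨i, hi⟩ : ∃ i, z i ≠ 0 := by
        by_contra h
        push Not at h
        exact hz (funext h)
      have h3 := hΨ2 p i
      rw [hp] at h3
      simp only [Pi.zero_apply] at h3
      rcases mul_eq_zero.mp h3.symm with h | h
      · exact h
      · exact absurd h hi
    exact Prod.ext h1 h2
  have hΨker : ∀ p, Ψ p ∈ LinearMap.ker (Matrix.mulVecLin X) := by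
    intro p
    rw [LinearMap.mem_ker]
    show Matrix.mulVecLin X ((∑ b, p.1 b • Pi.single (e b) (1 : ℂ)) + p.2 • u) = 0
    have h1 : ∀ b, Matrix.mulVecLin X (Pi.single (e b) (1 : ℂ)) = 0 := by
      intro b
      rw [Matrix.mulVecLin_apply, Matrix.mulVec_single_one]
      funext l
      exact hcol b l
    have h2 : Matrix.mulVecLin X u = 0 := by
      simp only [u, map_sum, map_smul, Matrix.mulVecLin_apply, Matrix.mulVec_single_one]
      funext l
      simp only [Finset.sum_apply, Pi.smul_apply, smul_eq_mul, Pi.zero_apply]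
      exact hcon l
    rw [map_add, map_sum, map_smul, h2, smul_zero, add_zero]
    apply Finset.sum_eq_zero
    intro b _
    rw [map_smul, h1, smul_zero]
  have hfin : finrank ℂ ((Fin (m - 1) → ℂ) × ℂ) ≤ nul X := by
    apply LinearMap.finrank_le_finrank_of_injective
      (f := LinearMap.codRestrict (LinearMap.ker (Matrix.mulVecLin X)) Ψ hΨker)
    intro p q h
    apply hΨinj
    exact congrArg Subtype.val h
  rw [Module.finrank_prod, Module.finrank_fin_fun, Module.finrank_self] at hfin
  omega

/-- the matrix representing a real functional on `M_n(ℂ)` -/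
noncomputable def YY {n : ℕ} (φ : Module.Dual ℝ (Matrix (Fin n) (Fin n) ℂ)) (a b : Fin n) : ℂ :=
  (φ (Matrix.single a b 1) : ℂ) - Complex.I * (φ (Matrix.single a b Complex.I) : ℂ)

theorem YY_spec {n : ℕ} (φ : Module.Dual ℝ (Matrix (Fin n) (Fin n) ℂ))
    (X : Matrix (Fin n) (Fin n) ℂ) : φ X = (∑ a, ∑ b, X a b * YY φ a b).re := by
  have h1 : X = ∑ a, ∑ b, ((X a b).re • Matrix.single a b (1 : ℂ) +
      (X a b).im • Matrix.single a b Complex.I) := by
    conv_lhs => rw [Matrix.matrix_eq_sum_single X]
    refine Finset.sum_congr rfl fun a _ => Finset.sum_congr rfl fun b _ => ?_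
    rw [Matrix.smul_single, Matrix.smul_single, ← Matrix.single_add]
    congr 1
    simp only [Complex.real_smul, mul_one]
    exact (Complex.re_add_im (X a b)).symm
  conv_lhs => rw [h1]
  simp only [map_sum, map_add, map_smul, Complex.re_sum, smul_eq_mul]
  refine Finset.sum_congr rfl fun a _ => Finset.sum_congr rfl fun b _ => ?_
  simp [YY]

theorem case_two_aux {n : ℕ} (hn : 3 ≤ n) {W : Type*} [AddCommGroup W] [Module ℝ W]
    [FiniteDimensional ℝ W] (hW : finrank ℝ W = 2 * n)
    (ev : W →ₗ[ℝ] Module.Dual ℝ (Matrix (Fin n) (Fin n) ℂ))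
    (hev : ∀ w u : Fin n → ℂ, w ≠ 0 → u ≠ 0 → ∃ ψ : W, ev ψ (Matrix.vecMulVec w u) ≠ 0) :
    False := by
  let κ : Fin 3 → Fin n := Fin.castLE hn
  let A : W →ₗ[ℝ] (Fin 3 → Fin n → ℂ) :=
    { toFun := fun φ i l => YY (ev φ) l (κ i)
      map_add' := by
        intro φ ψ
        funext i l
        simp only [YY, map_add, LinearMap.add_apply, Complex.ofReal_add, Pi.add_apply]
        ring
      map_smul' := by
        intro c φ
        funext i l
        simp only [YY, map_smul, LinearMap.smul_apply, smul_eq_mul, Complex.ofReal_mul,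
          Pi.smul_apply, RingHom.id_apply, Complex.real_smul]
        ring }
  apply no_three' (n := n) (by omega) (le_of_eq hW.symm) A
  intro φ hφ z hz
  by_contra hcon
  push Not at hcon
  apply hφ
  let u : Fin n → ℂ := ∑ i, z i • Pi.single (κ i) (1 : ℂ)
  have hκinj : ∀ b b', κ b = κ b' → b = b' := by
    intro b b' h
    exact Fin.castLE_injective hn h
  have hu2 : ∀ i, u (κ i) = z i := by
    intro i
    simp only [u, Finset.sum_apply, Pi.smul_apply, smul_eq_mul]
    rw [Finset.sum_eq_single i]
    · simp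
    · intro k _ hk
      rw [Pi.single_eq_of_ne (fun h => hk (hκinj _ _ h).symm)]
      simp
    · simp
  have hu0 : u ≠ 0 := by
    intro h
    apply hz
    funext i
    rw [← hu2 i, h]; rfl
  -- the functional vanishes on all w uᵀ
  have hvan : ∀ w : Fin n → ℂ, ev φ (Matrix.vecMulVec w u) = 0 := by
    intro w
    rw [YY_spec]
    have h1 : ∀ a, ∑ b, Matrix.vecMulVec w u a b * YY (ev φ) a b = 0 := by
      intro a
      have h2 : ∑ b, Matrix.vecMulVec w u a b * YY (ev φ) a b = w a * ∑ i, z i * A φ i a := by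
        have h3 : ∑ b, u b * YY (ev φ) a b = ∑ i, z i * A φ i a := by
          simp only [u, Finset.sum_apply, Pi.smul_apply, smul_eq_mul, Finset.sum_mul]
          rw [Finset.sum_comm]
          refine Finset.sum_congr rfl fun i _ => ?_
          rw [Finset.sum_eq_single (κ i)]
          · simp [A]
          · intro k _ hk
            rw [Pi.single_eq_of_ne hk]
            simp
          · simp
        rw [← h3, Finset.mul_sum]
        refine Finset.sum_congr rfl fun b _ => ?_
        rw [Matrix.vecMulVec_apply]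
        ring
      rw [h2, hcon a, mul_zero]
    simp [h1]
  let Θ : (Fin n → ℂ) →ₗ[ℝ] Module.Dual ℝ W :=
    { toFun := fun w =>
        { toFun := fun ψ => ev ψ (Matrix.vecMulVec w u)
          map_add' := by intro a b; simp
          map_smul' := by intro a b; simp }
      map_add' := by
        intro w w'
        apply LinearMap.ext
        intro ψ
        show ev ψ (Matrix.vecMulVec (w + w') u) =
          ev ψ (Matrix.vecMulVec w u) + ev ψ (Matrix.vecMulVec w' u)
        rw [Matrix.add_vecMulVec, map_add]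
      map_smul' := by
        intro c w
        apply LinearMap.ext
        intro ψ
        show ev ψ (Matrix.vecMulVec (c • w) u) = c • ev ψ (Matrix.vecMulVec w u)
        rw [Matrix.smul_vecMulVec, map_smul] }
  have hΘinj : Function.Injective Θ := by
    rw [← LinearMap.ker_eq_bot, LinearMap.ker_eq_bot']
    intro w hw
    by_contra hw0
    obtain ⟨ψ, hψ⟩ := hev w u hw0 hu0
    exact hψ (LinearMap.congr_fun hw ψ)
  have hfr : finrank ℝ (Fin n → ℂ) = finrank ℝ (Module.Dual ℝ W) := by
    rw [Subspace.dual_finrank_eq, hW, Module.finrank_pi_fintype]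
    simp [Complex.finrank_real_complex, mul_comm]
  have hsurj : Function.Surjective Θ :=
    (LinearMap.injective_iff_surjective_of_finrank_eq_finrank hfr).mp hΘinj
  rw [← Module.forall_dual_apply_eq_zero_iff ℝ]
  intro f
  obtain ⟨w, rfl⟩ := hsurj f
  exact hvan w

theorem case_two {n m : ℕ} (hn : 3 ≤ n) (hmn : m + 1 = n)
    (V : Submodule ℝ (Matrix (Fin n) (Fin n) ℂ)) (hV : finrank ℝ V = 2 * m * n)
    (H : ∀ X ∈ V, X ≠ 0 → nul X < m) : False := by
  have hW : finrank ℝ V.dualAnnihilator = 2 * n := by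
    have h1 := Subspace.finrank_add_finrank_dualAnnihilator_eq V
    rw [hV, Module.finrank_matrix, Complex.finrank_real_complex] at h1
    simp only [Fintype.card_fin] at h1
    subst hmn
    nlinarith
  refine case_two_aux hn (W := V.dualAnnihilator) hW V.dualAnnihilator.subtype ?_
  intro w u hw0 hu0
  by_contra hcon
  push Not at hcon
  have h1 : Matrix.vecMulVec w u ∈ V := by
    rw [← Subspace.forall_mem_dualAnnihilator_apply_eq_zero_iff]
    intro ψ hψ
    exact hcon ⟨ψ, hψ⟩
  have h2 : Matrix.vecMulVec w u ≠ 0 := by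
    intro h
    rcases Matrix.vecMulVec_eq_zero.mp h with h | h
    · exact hw0 h
    · exact hu0 h
  have h3 := H _ h1 h2
  have h4 := Matrix.rank_vecMulVec_le w u
  have h5 := LinearMap.finrank_range_add_finrank_ker (Matrix.mulVecLin (Matrix.vecMulVec w u))
  rw [Module.finrank_fin_fun] at h5
  unfold nul at h3
  unfold Matrix.rank at h4
  omega

theorem exists_big_kernel {n m : ℕ} (hm : 1 ≤ m) (hmn : m < n) (hn : 3 ≤ n)
    (V : Submodule ℝ (Matrix (Fin n) (Fin n) ℂ)) (hV : finrank ℝ V = 2 * m * n) :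
    ∃ X ∈ V, X ≠ 0 ∧ m ≤ nul X := by
  by_contra hcon
  push Not at hcon
  rcases Nat.lt_or_ge (m + 1) n with h | h
  · exact case_one hm (by omega) V hV hcon
  · exact case_two hn (by omega) V hV hcon

end Pool.Agent.V1140.ML
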