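import Mathlib
import Pool.Agent.V1140.ML.Reduce

/-!
Simultaneous Dirichlet approximation and a min-max bound for the small singular values.
-/

set_option autoImplicit false

namespace Pool.Agent.V1140.ML

open Module

theorem dirichlet (N : ℕ) (c : Fin N → ℝ) (δ : ℝ) (hδ : 0 < δ) :
    ∃ q : ℕ, 0 < q ∧ ∃ p : Fin N → ℤ, ∀ i, |q * c i - p i| < δ := by
  let x : ℕ → (Fin N → ℝ) := fun k i => Int.fract (k * c i)
  have hcomp : IsCompact (Set.Icc (0 : Fin N → ℝ) 1) := isCompact_Icc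
  have hx : ∀ k, x k ∈ Set.Icc (0 : Fin N → ℝ) 1 := by
    intro k
    constructor
    · intro i; exact Int.fract_nonneg _
    · intro i; exact (Int.fract_lt_one _).le
  obtain ⟨a, _, φ, hφ, hlim⟩ := hcomp.tendsto_subseq hx
  have hC := hlim.cauchySeq
  rw [Metric.cauchySeq_iff] at hC
  obtain ⟨M, hM⟩ := hC δ hδ
  have h1 := hM (M + 1) (by omega) M le_rfl
  have hlt : φ M < φ (M + 1) := hφ (by omega)
  refine ⟨φ (M + 1) - φ M, by omega, fun i => ⌊φ (M + 1) * c i⌋ - ⌊φ M * c i⌋, ?_⟩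
  intro i
  have h2 : dist (x (φ (M + 1)) i) (x (φ M) i) < δ := lt_of_le_of_lt (dist_le_pi_dist _ _ i) h1
  rw [Real.dist_eq] at h2
  have h3 : ((φ (M + 1) - φ M : ℕ) : ℝ) * c i - ((⌊φ (M + 1) * c i⌋ - ⌊φ M * c i⌋ : ℤ) : ℝ) =
      x (φ (M + 1)) i - x (φ M) i := by
    rw [Nat.cast_sub hlt.le]
    push_cast
    simp only [x, Int.fract]
    ring
  rw [h3]
  exact h2

theorem sv_le {n m : ℕ} (T : EuclideanSpace ℂ (Fin n) →ₗ[ℂ] EuclideanSpace ℂ (Fin n))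
    (K : Submodule ℂ (EuclideanSpace ℂ (Fin n))) (hK : m ≤ finrank ℂ K) (ε : ℝ) (hε : 0 ≤ ε)
    (hT : ∀ v ∈ K, ‖T v‖ ≤ ε * ‖v‖) (i : ℕ) (hi : i < n) (hi2 : n ≤ i + m) :
    T.singularValues i ≤ ε := by
  have hn : finrank ℂ (EuclideanSpace ℂ (Fin n)) = n := finrank_euclideanSpace_fin
  let hS := T.isSymmetric_adjoint_comp_self
  let b := hS.eigenvectorBasis hn
  let μ := hS.eigenvalues hn
  let g : K →ₗ[ℂ] (Fin (n - 1 - i) → ℂ) :=
    { toFun := fun v j => b.repr (v : EuclideanSpace ℂ (Fin n)) ⟨i + 1 + j.1, by omega⟩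
      map_add' := by intro v w; funext j; simp
      map_smul' := by intro c v; funext j; simp }
  have hker : LinearMap.ker g ≠ ⊥ := by
    apply LinearMap.ker_ne_bot_of_finrank_lt
    rw [Module.finrank_fin_fun]
    omega
  obtain ⟨v, hv, hv0⟩ := (Submodule.ne_bot_iff _).mp hker
  have hr : ∀ j : Fin n, i < j.1 → b.repr (v : EuclideanSpace ℂ (Fin n)) j = 0 := by
    intro j hj
    have h1 := congrFun (LinearMap.mem_ker.mp hv) ⟨j.1 - (i + 1), by omega⟩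
    have h2 : (⟨i + 1 + (j.1 - (i + 1)), by omega⟩ : Fin n) = j := by
      apply Fin.ext; simp only; omega
    have h3 : b.repr (v : EuclideanSpace ℂ (Fin n)) ⟨i + 1 + (j.1 - (i + 1)), by omega⟩ = 0 := h1
    rwa [h2] at h3
  set w : EuclideanSpace ℂ (Fin n) := (v : EuclideanSpace ℂ (Fin n)) with hw
  have hw0 : w ≠ 0 := by
    intro h; apply hv0; exact Subtype.ext h
  have hnw : 0 < ‖w‖ := norm_pos_iff.mpr hw0
  have h2 : ‖w‖ ^ 2 = ∑ j, ‖b.repr w j‖ ^ 2 := by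
    rw [← EuclideanSpace.norm_sq_eq, b.repr.norm_map]
  have h1 : ‖T w‖ ^ 2 = ∑ j, μ j * ‖b.repr w j‖ ^ 2 := by
    have e1 : (inner ℂ ((LinearMap.adjoint T ∘ₗ T) w) w : ℂ) = (‖T w‖ : ℂ) ^ 2 := by
      rw [LinearMap.comp_apply, LinearMap.adjoint_inner_left, inner_self_eq_norm_sq_to_K]
      rfl
    have e2 : (inner ℂ ((LinearMap.adjoint T ∘ₗ T) w) w : ℂ) =
        ∑ j, ((μ j * ‖b.repr w j‖ ^ 2 : ℝ) : ℂ) := by
      rw [← b.repr.inner_map_map, PiLp.inner_apply]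
      refine Finset.sum_congr rfl fun j _ => ?_
      rw [hS.eigenvectorBasis_apply_self_apply hn]
      rw [RCLike.inner_apply, map_mul]
      push_cast
      have e3 : (b.repr w j) * (starRingEnd ℂ (b.repr w j)) = ((‖b.repr w j‖ : ℂ)) ^ 2 := by
        rw [Complex.mul_conj, Complex.normSq_eq_norm_sq]; push_cast; rfl
      rw [← e3]
      have e4 : (starRingEnd ℂ) ((μ j : ℝ) : ℂ) = ((μ j : ℝ) : ℂ) := Complex.conj_ofReal _
      calc b.repr w j * ((starRingEnd ℂ) ((μ j : ℝ) : ℂ) * (starRingEnd ℂ) (b.repr w j))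
          = b.repr w j * (((μ j : ℝ) : ℂ) * (starRingEnd ℂ) (b.repr w j)) := by rw [e4]
        _ = _ := by ring
    rw [e1] at e2
    exact_mod_cast e2
  have h3 : μ ⟨i, hi⟩ * ‖w‖ ^ 2 ≤ ‖T w‖ ^ 2 := by
    rw [h1, h2, Finset.mul_sum]
    apply Finset.sum_le_sum
    intro j _
    by_cases hj : i < j.1
    · rw [hr j hj]; simp
    · apply mul_le_mul_of_nonneg_right _ (by positivity)
      apply hS.eigenvalues_antitone hn
      show j.1 ≤ i
      omega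
  have h4 : ‖T w‖ ^ 2 ≤ ε ^ 2 * ‖w‖ ^ 2 := by
    rw [← mul_pow]
    exact pow_le_pow_left₀ (norm_nonneg _) (hT w v.2) 2
  have h5 : μ ⟨i, hi⟩ ≤ ε ^ 2 := by
    have : μ ⟨i, hi⟩ * ‖w‖ ^ 2 ≤ ε ^ 2 * ‖w‖ ^ 2 := h3.trans h4
    exact le_of_mul_le_mul_right this (by positivity)
  rw [T.singularValues_of_lt hn hi]
  exact Real.sqrt_le_iff.mpr ⟨hε, h5⟩

end Pool.Agent.V1140.ML
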